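import Pool.Agent.H84.FK.Targets3

/-!
# MP_85c4d1_al: Lemma A, first part
-/

set_option autoImplicit false

namespace Pool.Agent.H99.FKLA1

open Pool.Agent.H84.FK

theorem pf_la1 : T_LA1 := by
  intro G _ M R U z h v hv hv1 hz1
  set z1 : G := v⁻¹ * z * v with hz1def
  have z11 : z1 * z1 = 1 := by
    have : z1 * z1 = v⁻¹ * (z * z) * v := by rw [hz1def]; group
    rw [this, h.inv]; group
  have z1i : z1⁻¹ = z1 := inv_eq_of_mul_eq_one_left z11
  have ordc : ∀ g x : G, orderOf (g * x * g⁻¹) = orderOf x := fun g x => by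
    have := orderOf_injective (MulAut.conj g).toMonoidHom (MulAut.conj g).injective x
    simpa using this
  have hUM : ∀ x ∈ U, x ∈ M := fun x hx => ((h.odd x).1 hx).1
  have hUn : ∀ m ∈ M, ∀ x ∈ U, m * x * m⁻¹ ∈ U := by
    intro m hm x hx
    rw [h.odd, ordc]
    exact ⟨M.mul_mem (M.mul_mem hm (hUM x hx)) (M.inv_mem hm), ((h.odd x).1 hx).2⟩
  have hUn' : ∀ m ∈ M, ∀ x ∈ U, m⁻¹ * x * m ∈ U := by
    intro m hm x hx
    have := hUn m⁻¹ (M.inv_mem hm) x hx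
    simpa using this
  -- squares act trivially
  have hsq : ∀ m ∈ M, ∀ x ∈ U, m⁻¹ * x * m = m * x * m⁻¹ := by
    intro m hm x hx
    have := h.sq m hm x hx
    calc m⁻¹ * x * m = m⁻¹ * (x * (m * m)) * m⁻¹ := by group
      _ = m⁻¹ * ((m * m) * x) * m⁻¹ := by rw [this]
      _ = m * x * m⁻¹ := by group
  have hcomm : ∀ m ∈ M, ∀ x ∈ U, z1 * (m * x * m⁻¹) * z1⁻¹ = m * (z1 * x * z1⁻¹) * m⁻¹ := by
    intro m hm x hx
    -- (m z1)⁻¹ x (m z1) = (m z1) x (m z1)⁻¹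
    have h1 := hsq (m * z1) (M.mul_mem hm hz1) x hx
    have h2 : (m * z1)⁻¹ * x * (m * z1) = z1⁻¹ * (m⁻¹ * x * m) * z1 := by group
    have h3 : (m * z1) * x * (m * z1)⁻¹ = m * (z1 * x * z1⁻¹) * m⁻¹ := by group
    rw [h2, h3, hsq m hm x hx, hsq z1 hz1 _ (hUn m hm x hx)] at h1
    exact h1
  -- the subgroup P
  let P : Subgroup G :=
    { carrier := {x | x ∈ U ∧ z1 * x = x * z1}
      one_mem' := ⟨U.one_mem, by simp⟩
      mul_mem' := by
        rintro a b ⟨ha, ha'⟩ ⟨hb, hb'⟩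
        refine ⟨U.mul_mem ha hb, ?_⟩
        rw [← mul_assoc, ha', mul_assoc, hb', mul_assoc]
      inv_mem' := by
        rintro a ⟨ha, ha'⟩
        refine ⟨U.inv_mem ha, ?_⟩
        calc z1 * a⁻¹ = a⁻¹ * (a * z1) * a⁻¹ := by group
          _ = a⁻¹ * (z1 * a) * a⁻¹ := by rw [ha']
          _ = a⁻¹ * z1 := by group }
  have hPdef : ∀ x, x ∈ P ↔ x ∈ U ∧ z1 * x = x * z1 := fun x => Iff.rfl
  have hPn : ∀ m ∈ M, ∀ x ∈ P, m * x * m⁻¹ ∈ P := by
    intro m hm x hx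
    obtain ⟨hx1, hx2⟩ := (hPdef x).1 hx
    refine (hPdef _).2 ⟨hUn m hm x hx1, ?_⟩
    have h1 := hcomm m hm x hx1
    have h2 : z1 * x * z1⁻¹ = x := by rw [hx2]; group
    rw [h2] at h1
    calc z1 * (m * x * m⁻¹) = (z1 * (m * x * m⁻¹) * z1⁻¹) * z1 := by group
      _ = (m * x * m⁻¹) * z1 := by rw [h1]
  have hPbot : P = ⊥ := by
    by_contra hP
    have hUbot : U ≠ ⊥ := by
      intro hU
      apply hP
      rw [eq_bot_iff]
      intro x hx
      rw [← hU]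
      exact ((hPdef x).1 hx).1
    have k1 : ∀ x ∈ P, v * x * v⁻¹ ∈ U := by
      intro x hx
      obtain ⟨hx1, hx2⟩ := (hPdef x).1 hx
      rw [h.odd, ordc]
      refine ⟨?_, ((h.odd x).1 hx1).2⟩
      rw [← h.cen]
      have hz : z = v * z1 * v⁻¹ := by rw [hz1def]; group
      calc (v * x * v⁻¹) * z = (v * x * v⁻¹) * (v * z1 * v⁻¹) := by rw [← hz]
        _ = v * (x * z1) * v⁻¹ := by group
        _ = v * (z1 * x) * v⁻¹ := by rw [hx2]
        _ = (v * z1 * v⁻¹) * (v * x * v⁻¹) := by group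
        _ = z * (v * x * v⁻¹) := by rw [← hz]
    have k2 : ∀ y ∈ U, v⁻¹ * y * v ∈ U := by
      intro y hy
      have hM : v⁻¹ * y * v ∈ M := by
        refine h.nor P (fun x hx => ((hPdef x).1 hx).1) hP hPn _ ?_
        intro x hx
        have hc := h.abU _ (k1 x hx) y hy
        have : (v⁻¹ * y * v) * x * (v⁻¹ * y * v)⁻¹ = x := by
          calc (v⁻¹ * y * v) * x * (v⁻¹ * y * v)⁻¹
              = v⁻¹ * (y * (v * x * v⁻¹)) * y⁻¹ * v := by group
            _ = v⁻¹ * ((v * x * v⁻¹) * y) * y⁻¹ * v := by rw [hc]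
            _ = x := by group
        rw [this]
        exact hx
      rw [h.odd]
      refine ⟨hM, ?_⟩
      have := ordc v⁻¹ y
      rw [inv_inv] at this
      rw [this]
      exact ((h.odd y).1 hy).2
    have k3 : v⁻¹ ∈ M := by
      refine h.nor U le_rfl hUbot hUn _ ?_
      intro x hx
      rw [inv_inv]
      exact k2 x hx
    exact hv1 (h.int v (by simpa using M.inv_mem k3) hv)
  intro x hx
  have hz1x : z1 * x * z1⁻¹ ∈ U := hUn z1 hz1 x hx
  have ht : x * (z1 * x * z1⁻¹) ∈ P := by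
    refine (hPdef _).2 ⟨U.mul_mem hx hz1x, ?_⟩
    have hc := h.abU x hx _ hz1x
    calc z1 * (x * (z1 * x * z1⁻¹)) = (z1 * x * z1⁻¹) * ((z1 * z1) * x * z1⁻¹) := by group
      _ = (z1 * x * z1⁻¹) * x * z1⁻¹ := by rw [z11]; group
      _ = (x * (z1 * x * z1⁻¹)) * z1⁻¹ := by rw [hc]
      _ = (x * (z1 * x * z1⁻¹)) * z1 := by rw [z1i]
  rw [hPbot, Subgroup.mem_bot] at ht
  exact (inv_eq_of_mul_eq_one_right ht).symm

end Pool.Agent.H99.FKLA1
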