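import Pool.Agent.H84.FK.Targets3

/-!
# MP_85c4d1_al: row Z5D
-/

set_option autoImplicit false
set_option linter.unusedVariables false

namespace Pool.Agent.H99.FKZ5D

open Pool.Agent.H84.FK

theorem pow2_or {G : Type} [Group G] [Finite G] (y : G) :
    (∃ k : ℕ, y ^ (2 ^ k) = 1) ∨ ∃ (p j : ℕ), p.Prime ∧ p ≠ 2 ∧ orderOf (y ^ j) = p := by
  have hpos : orderOf y ≠ 0 := (orderOf_pos y).ne'
  obtain ⟨k, m, hm, hk⟩ := Nat.exists_eq_two_pow_mul_odd hpos
  by_cases h1 : m = 1
  · left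
    refine ⟨k, ?_⟩
    rw [h1, mul_one] at hk
    rw [← hk]
    exact pow_orderOf_eq_one y
  · right
    have hp : (m.minFac).Prime := Nat.minFac_prime h1
    have hd : m.minFac ∣ orderOf y := by
      rw [hk]
      exact Dvd.dvd.mul_left (Nat.minFac_dvd m) _
    refine ⟨m.minFac, orderOf y / m.minFac, hp, ?_, ?_⟩
    · intro h2
      have : 2 ∣ m := h2 ▸ Nat.minFac_dvd m
      exact (Nat.not_even_iff_odd.2 hm) (even_iff_two_dvd.2 this)
    · exact orderOf_pow_orderOf_div hpos hd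

theorem pf_z5d (hBS : T_BS) (hD2 : T_D2) (hD4 : T_D4) : T_Z5D := by
  intro G _ A A0 B B0 M u d ce zs hM1
  have := ce.fin
  have := Fintype.ofFinite G
  -- `M` is a `2`-group
  have hM2 : IsPGroup 2 M := by
    intro x
    rcases pow2_or (x : G) with ⟨k, hk⟩ | ⟨p, j, hp, hp2, hj⟩
    · exact ⟨k, Subtype.ext (by simpa using hk)⟩
    · exfalso
      have h1 : ((x : G) ^ j) ∈ M := M.pow_mem x.2 j
      have h2 : ¬ 2 ∣ orderOf ((x : G) ^ j) := by
        rw [hj]
        intro h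
        exact hp2 ((Nat.prime_dvd_prime_iff_eq Nat.prime_two hp).1 h).symm
      have h3 := hM1 _ h1 h2
      rw [h3, orderOf_one] at hj
      exact hp.one_lt.ne hj
  obtain ⟨a, ha⟩ := IsPGroup.iff_card.1 hM2
  -- index of `B0`
  have hidx : Nat.card (G ⧸ B0) = 2 ^ a := by
    rw [← ha]
    symm
    refine Nat.card_congr (Equiv.ofBijective (fun m : M => ((m : G) : G ⧸ B0)) ⟨?_, ?_⟩)
    · intro m n hmn
      have h1 : (m : G)⁻¹ * n ∈ B0 := QuotientGroup.eq.1 hmn
      have h2 : (m : G)⁻¹ * n ∈ M := M.mul_mem (M.inv_mem m.2) n.2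
      have h3 := zs.int _ h2 h1
      exact Subtype.ext (inv_mul_eq_one.1 h3)
    · intro q
      obtain ⟨g, rfl⟩ := QuotientGroup.mk_surjective q
      obtain ⟨m, hm, b, hb, hg⟩ := zs.fac g
      refine ⟨⟨m, hm⟩, QuotientGroup.eq.2 ?_⟩
      rw [hg]
      simpa using hb
  have hui : u⁻¹ = u := inv_eq_of_mul_eq_one_left zs.u2
  have key : ∀ g : G, ∃ k : ℕ, (u * (g * u * g⁻¹)) ^ (2 ^ k) = 1 := by
    intro g
    rcases pow2_or (u * (g * u * g⁻¹)) with h | ⟨p, j, hp, hp2, hj⟩
    · exact h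
    exfalso
    set y : G := u * (g * u * g⁻¹) with hy
    set r : G := y ^ j with hr
    have hr1 : r ≠ 1 := by
      intro h
      rw [h, orderOf_one] at hj
      exact hp.one_lt.ne hj
    have huy : u * y * u⁻¹ = y⁻¹ := by
      have h1 : y * (u * y * u⁻¹) = 1 := by
        rw [hy]
        calc u * (g * u * g⁻¹) * (u * (u * (g * u * g⁻¹)) * u⁻¹)
            = u * (g * u * g⁻¹) * (u * u) * (g * u * g⁻¹) * u⁻¹ := by group
          _ = u * (g * u * g⁻¹) * 1 * (g * u * g⁻¹) * u⁻¹ := by rw [zs.u2]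
          _ = u * (g * (u * u) * g⁻¹) * u⁻¹ := by group
          _ = 1 := by rw [zs.u2]; group
      exact eq_inv_of_mul_eq_one_right h1
    have hur : u * r * u⁻¹ = r⁻¹ := by
      have : u * y ^ j * u⁻¹ = (u * y * u⁻¹) ^ j := (conj_pow).symm
      rw [hr, this, huy, inv_pow]
    -- `r` is conjugate into `B0`
    have hpf : Fact p.Prime := ⟨hp⟩
    have hpg : IsPGroup p (Subgroup.zpowers r) := by
      apply IsPGroup.of_card (n := 1)
      rw [Nat.card_zpowers, hj, pow_one]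
    have hnd : ¬ p ∣ Nat.card (G ⧸ B0) := by
      rw [hidx]
      intro h
      have := hp.dvd_of_dvd_pow h
      exact hp2 ((Nat.prime_dvd_prime_iff_eq hp Nat.prime_two).1 this)
    obtain ⟨q, hq⟩ := hpg.nonempty_fixed_point_of_prime_not_dvd_card (G ⧸ B0) hnd
    obtain ⟨h, rfl⟩ := QuotientGroup.mk_surjective q
    have hrh : h⁻¹ * r * h ∈ B0 := by
      have h1 := hq ⟨r, Subgroup.mem_zpowers r⟩
      have h2 : ((r * h : G) : G ⧸ B0) = (h : G ⧸ B0) := h1
      have h3 := QuotientGroup.eq.1 h2.symm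
      simpa [mul_assoc] using h3
    obtain ⟨m1, hm1, b1, hb1, hmb⟩ := zs.fac h
    -- `m1 b m1⁻¹` commutes with `r`
    have hcomm : ∀ b ∈ B0, (m1 * b * m1⁻¹) * r = r * (m1 * b * m1⁻¹) := by
      intro b hb
      -- h (b1⁻¹ b b1) h⁻¹ = m1 b m1⁻¹
      have e1 : m1 * b * m1⁻¹ = h * (b1⁻¹ * b * b1) * h⁻¹ := by rw [hmb]; group
      have e2 : (b1⁻¹ * b * b1) ∈ B0 := B0.mul_mem (B0.mul_mem (B0.inv_mem hb1) hb) hb1
      have e3 := ce.abB _ e2 _ hrh
      rw [e1]
      calc h * (b1⁻¹ * b * b1) * h⁻¹ * r = h * ((b1⁻¹ * b * b1) * (h⁻¹ * r * h)) * h⁻¹ := by group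
        _ = h * ((h⁻¹ * r * h) * (b1⁻¹ * b * b1)) * h⁻¹ := by rw [e3]
        _ = r * (h * (b1⁻¹ * b * b1) * h⁻¹) := by group
    have hinv : ∀ g : G, (g⁻¹ * u * g) * r * (g⁻¹ * u * g)⁻¹ = r⁻¹ := by
      intro g
      obtain ⟨m, hm, b, hb, hg⟩ := zs.fac (g * m1)
      set c : G := m1 * b * m1⁻¹ with hc
      set n : G := m * m1⁻¹ with hn
      have hnM : n ∈ M := M.mul_mem hm (M.inv_mem hm1)
      have hgnc : g = n * c := by
        have : g = (g * m1) * m1⁻¹ := by group
        rw [this, hg, hn, hc]; group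
      have hnu : n * u = u * n := (zs.cen n).2 hnM
      have e1 : g⁻¹ * u * g = c⁻¹ * u * c := by
        rw [hgnc]
        calc (n * c)⁻¹ * u * (n * c) = c⁻¹ * n⁻¹ * (u * n) * c := by group
          _ = c⁻¹ * n⁻¹ * (n * u) * c := by rw [hnu]
          _ = c⁻¹ * u * c := by group
      have hcr : c * r = r * c := hcomm b hb
      have hcr2 : c * r * c⁻¹ = r := by rw [hcr]; group
      have hcr3 : c⁻¹ * r⁻¹ * c = r⁻¹ := by
        have : c⁻¹ * r⁻¹ * c = (c⁻¹ * r * c)⁻¹ := by group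
        rw [this]
        congr 1
        calc c⁻¹ * r * c = c⁻¹ * (r * c) := by group
          _ = c⁻¹ * (c * r) := by rw [hcr]
          _ = r := by group
      rw [e1]
      calc (c⁻¹ * u * c) * r * (c⁻¹ * u * c)⁻¹ = c⁻¹ * (u * (c * r * c⁻¹) * u⁻¹) * c := by group
        _ = c⁻¹ * (u * r * u⁻¹) * c := by rw [hcr2]
        _ = c⁻¹ * r⁻¹ * c := by rw [hur]
        _ = r⁻¹ := hcr3
    -- the normal closure of `u`
    let N : Subgroup G :=
      { carrier := {w | w * r * w⁻¹ = r ∨ w * r * w⁻¹ = r⁻¹}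
        one_mem' := Or.inl (by group)
        mul_mem' := by
          intro w1 w2 h1 h2
          have e : w1 * w2 * r * (w1 * w2)⁻¹ = w1 * (w2 * r * w2⁻¹) * w1⁻¹ := by group
          have e' : w1 * r⁻¹ * w1⁻¹ = (w1 * r * w1⁻¹)⁻¹ := by group
          simp only [Set.mem_ofPred_eq] at h1 h2 ⊢
          rw [e]
          rcases h2 with h2 | h2
          · rw [h2]; exact h1
          · rw [h2, e']
            rcases h1 with h1 | h1
            · right; rw [h1]
            · left; rw [h1, inv_inv]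
        inv_mem' := by
          intro w h1
          simp only [Set.mem_ofPred_eq] at h1 ⊢
          rcases h1 with h1 | h1
          · left
            calc w⁻¹ * r * w⁻¹⁻¹ = w⁻¹ * (w * r * w⁻¹) * w := by rw [h1]; group
              _ = r := by group
          · right
            calc w⁻¹ * r * w⁻¹⁻¹ = (w⁻¹ * r⁻¹ * w)⁻¹ := by group
              _ = (w⁻¹ * (w * r * w⁻¹) * w)⁻¹ := by rw [h1]
              _ = r⁻¹ := by group }
    have hWN : Subgroup.normalClosure {u} ≤ N := by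
      rw [Subgroup.normalClosure, Subgroup.closure_le]
      intro x hx
      rw [Group.mem_conjugatesOfSet_iff] at hx
      obtain ⟨w, hw, hx⟩ := hx
      rw [Set.mem_singleton_iff] at hw
      subst hw
      obtain ⟨g, rfl⟩ := isConj_iff.1 hx
      right
      have := hinv g⁻¹
      simpa using this
    set W : Subgroup G := Subgroup.normalClosure {u} with hW
    have huW : u ∈ W := Subgroup.subset_normalClosure (Set.mem_singleton u)
    have hWn : W.Normal := Subgroup.normalClosure_normal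
    by_cases hab : ∀ x ∈ W, ∀ y ∈ W, x * y = y * x
    · have hsol : Group.IsSolvable W :=
        Group.isSolvable_of_comm (fun a b => Subtype.ext (hab a a.2 b b.2))
      have := ce.quo W hWn hsol
      rw [this, Subgroup.mem_bot] at huW
      exact zs.une huW
    · push Not at hab
      obtain ⟨w1, hw1, w2, hw2, hne⟩ := hab
      refine hD2 G A A0 B B0 ce (w1 * w2 * w1⁻¹ * w2⁻¹) r ?_ hr1 ?_
      · intro h1
        apply hne
        calc w1 * w2 = (w1 * w2 * w1⁻¹ * w2⁻¹) * (w2 * w1) := by group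
          _ = w2 * w1 := by rw [h1, one_mul]
      · intro g
        have c1 : ∀ x ∈ W, ∀ y ∈ W, (x * y * x⁻¹ * y⁻¹) * r = r * (x * y * x⁻¹ * y⁻¹) := by
          intro x hx y hy
          have e' : ∀ w : G, w * r⁻¹ * w⁻¹ = (w * r * w⁻¹)⁻¹ := fun w => by group
          have f : ∀ w : G, (w * r * w⁻¹ = r ∨ w * r * w⁻¹ = r⁻¹) →
              (w⁻¹ * r * w = w * r * w⁻¹) := by
            intro w hw
            rcases hw with hw | hw
            · rw [hw]
              calc w⁻¹ * r * w = w⁻¹ * (w * r * w⁻¹) * w := by rw [hw]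
                _ = r := by group
            · rw [hw]
              calc w⁻¹ * r * w = (w⁻¹ * r⁻¹ * w)⁻¹ := by group
                _ = (w⁻¹ * (w * r * w⁻¹) * w)⁻¹ := by rw [hw]
                _ = r⁻¹ := by group
          have hx' : x * r * x⁻¹ = r ∨ x * r * x⁻¹ = r⁻¹ := hWN hx
          have hy' : y * r * y⁻¹ = r ∨ y * r * y⁻¹ = r⁻¹ := hWN hy
          have fx := f x hx'
          have fy := f y hy'
          have e : (x * y * x⁻¹ * y⁻¹) * r * (x * y * x⁻¹ * y⁻¹)⁻¹ = r := by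
            calc (x * y * x⁻¹ * y⁻¹) * r * (x * y * x⁻¹ * y⁻¹)⁻¹
                = x * (y * (x⁻¹ * (y⁻¹ * r * y) * x) * y⁻¹) * x⁻¹ := by group
              _ = x * (y * (x⁻¹ * (y * r * y⁻¹) * x) * y⁻¹) * x⁻¹ := by rw [fy]
              _ = r := by
                rcases hx' with hx' | hx' <;> rcases hy' with hy' | hy'
                · rw [hy', fx, hx', hy', hx']
                · rw [hy']
                  have : x⁻¹ * r⁻¹ * x = (x⁻¹ * r * x)⁻¹ := by group
                  rw [this, fx, hx', e', hy', inv_inv, hx']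
                · rw [hy', fx, hx', e', hy', e', hx', inv_inv]
                · rw [hy']
                  have : x⁻¹ * r⁻¹ * x = (x⁻¹ * r * x)⁻¹ := by group
                  rw [this, fx, hx', inv_inv, hy', e', hx', inv_inv]
          calc (x * y * x⁻¹ * y⁻¹) * r
              = ((x * y * x⁻¹ * y⁻¹) * r * (x * y * x⁻¹ * y⁻¹)⁻¹) * (x * y * x⁻¹ * y⁻¹) := by group
            _ = r * (x * y * x⁻¹ * y⁻¹) := by rw [e]
        have := c1 (g * w1 * g⁻¹) (hWn.conj_mem _ hw1 g) (g * w2 * g⁻¹) (hWn.conj_mem _ hw2 g)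
        have e2 : (g * w1 * g⁻¹) * (g * w2 * g⁻¹) * (g * w1 * g⁻¹)⁻¹ * (g * w2 * g⁻¹)⁻¹ =
            g * (w1 * w2 * w1⁻¹ * w2⁻¹) * g⁻¹ := by group
        rw [e2] at this
        exact this
  obtain ⟨N, hN, hN2, huN⟩ := hBS G u zs.u2 key
  have hf : Fact (Nat.Prime 2) := ⟨Nat.prime_two⟩
  have hnil : Group.IsNilpotent N := hN2.isNilpotent
  have hsol : Group.IsSolvable N := inferInstance
  have := ce.quo N hN hsol
  rw [this, Subgroup.mem_bot] at huN
  exact zs.une huN

end Pool.Agent.H99.FKZ5D
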